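import Mathlib

set_option autoImplicit false

namespace Pool.Agent.H.MP_88b750_co
open Finset

variable {ι : Type} [DecidableEq ι] {S : Finset ι} {X Y a b : ι → ℕ} {p q w h : ℕ}

/-- tiling of a block of unit cells by rectangles of distinct shapes -/
structure DT (S : Finset ι) (X Y a b : ι → ℕ) (p q w h : ℕ) : Prop where
  ins : ∀ i ∈ S, 0 < a i ∧ 0 < b i ∧ p ≤ X i ∧ X i + a i ≤ p + w ∧ q ≤ Y i ∧ Y i + b i ≤ q + h
  cov : ∀ u v, p ≤ u → u < p + w → q ≤ v → v < q + h →
    ∃ i ∈ S, X i ≤ u ∧ u < X i + a i ∧ Y i ≤ v ∧ v < Y i + b i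
  sep : ∀ i ∈ S, ∀ j ∈ S, i ≠ j →
    X i + a i ≤ X j ∨ X j + a j ≤ X i ∨ Y i + b i ≤ Y j ∨ Y j + b j ≤ Y i
  dis : ∀ i ∈ S, ∀ j ∈ S, i ≠ j → (a i ≠ a j ∨ b i ≠ b j) ∧ (a i ≠ b j ∨ b i ≠ a j)

lemma DT.swap (H : DT S X Y a b p q w h) : DT S Y X b a q p h w :=
  ⟨fun i hi => by have := H.ins i hi; omega, fun u v h1 h2 h3 h4 =>
    (H.cov v u h3 h4 h1 h2).imp fun i ⟨c1, c2⟩ => ⟨c1, by omega⟩,
    fun i hi j hj e => by have := H.sep i hi j hj e; omega,
    fun i hi j hj e => by have := H.dis i hi j hj e; omega⟩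

lemma DT.cols (H : DT S X Y a b p q w h) (k : ℕ)
    (hk : ∀ u, p ≤ u → u < p + w → k ≤ (S.filter fun i => X i ≤ u ∧ u < X i + a i).card) :
    w * k ≤ ∑ i ∈ S, a i := by
  calc w * k = (Ico p (p + w)).card • k := by simp
    _ ≤ ∑ u ∈ Ico p (p + w), (S.filter fun i => X i ≤ u ∧ u < X i + a i).card :=
      card_nsmul_le_sum _ _ _ fun u hu => hk u (mem_Ico.mp hu).1 (mem_Ico.mp hu).2
    _ = ∑ i ∈ S, ((Ico p (p + w)).filter fun u => X i ≤ u ∧ u < X i + a i).card := by
      simp only [card_filter]; exact sum_comm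
    _ ≤ _ := sum_le_sum fun i _ => (card_le_card (t := Ico (X i) (X i + a i)) fun u hu =>
      mem_Ico.mpr (mem_filter.mp hu).2).trans (by simp)

lemma DT.thin (H : DT S X Y a b p q w 1) :
    ∑ i ∈ S, (a i + b i) = w + S.card ∧ S.card * (S.card + 1) ≤ 2 * w := by
  have b1 : ∀ i ∈ S, b i = 1 ∧ Y i = q := fun i hi => by have := H.ins i hi; omega
  have e : ∑ i ∈ S, a i = w := by
    have : S.biUnion (fun i => Ico (X i) (X i + a i)) = Ico p (p + w) := by
      ext u
      simp only [mem_biUnion, mem_Ico]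
      exact ⟨fun ⟨i, hi, _⟩ => by have := H.ins i hi; omega, fun ⟨h1, h2⟩ =>
        (H.cov u q h1 h2 le_rfl (by omega)).imp fun i ⟨c1, c2⟩ => ⟨c1, by omega⟩⟩
    have := congrArg card this
    rw [card_biUnion fun i hi j hj e => disjoint_left.mpr fun u h1 h2 => by
      have := H.sep i hi j hj e
      have := b1 i hi
      have := b1 j hj
      rw [mem_Ico] at h1 h2
      omega] at this
    simpa using this
  have inj : Set.InjOn (fun i => (a i : ℤ)) S := fun i hi j hj e => by_contra fun c => by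
    have := H.dis i hi j hj c
    have := b1 i hi
    have := b1 j hj
    simp only at e
    omega
  have k := sum_range_le_sum (s := S.image fun i => (a i : ℤ)) (c := 1) fun x hx => by
    obtain ⟨i, hi, rfl⟩ := mem_image.mp hx
    have := H.ins i hi
    omega
  rw [card_image_of_injOn inj, sum_image inj, sum_add_distrib, ← Nat.cast_sum, ← Nat.cast_sum, e] at k
  have := sum_range_id_mul_two S.card
  refine ⟨by rw [sum_add_distrib, e, sum_congr rfl fun i hi => (b1 i hi).1]; simp, ?_⟩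
  simp only [sum_const, card_range, nsmul_eq_mul, mul_one] at k
  rcases Nat.eq_zero_or_pos S.card with c | c
  · simp [c]
  · obtain ⟨n, hn⟩ : ∃ n, S.card = n + 1 := ⟨S.card - 1, by omega⟩
    rw [hn] at k this ⊢
    rw [Nat.add_sub_cancel] at this
    zify at this ⊢
    push_cast at k this
    nlinarith

lemma DT.cross (H : DT S X Y a b p q w h)
    (hc : ∀ c, p < c → c < p + w → ∃ i ∈ S, X i < c ∧ c < X i + a i) :
    w + S.card ≤ ∑ i ∈ S, a i + 1 := by
  have := (card_le_card (s := Ioo p (p + w)) (t := S.biUnion fun i => Ioo (X i) (X i + a i))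
    fun c h1 => by simpa using hc c (mem_Ioo.mp h1).1 (mem_Ioo.mp h1).2).trans card_biUnion_le
  have e : ∑ i ∈ S, a i = ∑ i ∈ S, (Ioo (X i) (X i + a i)).card + S.card := by
    rw [card_eq_sum_ones S, ← sum_add_distrib]
    exact sum_congr rfl fun i hi => by have := H.ins i hi; simp; omega
  rw [Nat.card_Ioo] at this
  omega

lemma thick (n : ℕ) : ∀ (S : Finset ι) (X Y a b : ι → ℕ) (p q w h : ℕ), w + h ≤ n → 2 ≤ w → 2 ≤ h →
    DT S X Y a b p q w h → w + h + 2 * S.card ≤ ∑ i ∈ S, (a i + b i) + 2 := by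
  induction n with
  | zero => intro _ _ _ _ _ _ _ _ _ _ _; omega
  | succ n ih =>
  have key : ∀ (S : Finset ι) (X Y a b : ι → ℕ) (p q w h c : ℕ), w + h ≤ n + 1 → 2 ≤ w →
      DT S X Y a b p q w h → q < c → c < q + h → (∀ i ∈ S, Y i + b i ≤ c ∨ c ≤ Y i) →
      w + h + 2 * S.card ≤ ∑ i ∈ S, (a i + b i) + 2 := by
    intro S X Y a b p q w h c h1 h2 H c1 c2 hc
    have H1 : DT (S.filter fun i => Y i + b i ≤ c) X Y a b p q w (c - q) :=
      ⟨fun i hi => by have := H.ins i (mem_filter.mp hi).1; have := (mem_filter.mp hi).2; omega,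
        fun u v d1 d2 d3 d4 => (H.cov u v d1 d2 d3 (by omega)).imp fun i ⟨e1, e2⟩ =>
          ⟨mem_filter.mpr ⟨e1, by have := hc i e1; omega⟩, e2⟩,
        fun i hi j hj => H.sep i (mem_filter.mp hi).1 j (mem_filter.mp hj).1,
        fun i hi j hj => H.dis i (mem_filter.mp hi).1 j (mem_filter.mp hj).1⟩
    have H2 : DT (S.filter fun i => ¬Y i + b i ≤ c) X Y a b p c w (q + h - c) :=
      ⟨fun i hi => by
          have := H.ins i (mem_filter.mp hi).1
          have := hc i (mem_filter.mp hi).1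
          have := (mem_filter.mp hi).2
          omega,
        fun u v d1 d2 d3 d4 => (H.cov u v d1 d2 (by omega) (by omega)).imp fun i ⟨e1, e2⟩ =>
          ⟨mem_filter.mpr ⟨e1, by omega⟩, e2⟩,
        fun i hi j hj => H.sep i (mem_filter.mp hi).1 j (mem_filter.mp hj).1,
        fun i hi j hj => H.dis i (mem_filter.mp hi).1 j (mem_filter.mp hj).1⟩
    have e1 := sum_filter_add_sum_filter_not S (fun i => Y i + b i ≤ c) fun i => a i + b i
    have e2 := card_filter_add_card_filter_not (s := S) fun i => Y i + b i ≤ c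
    have t : ∀ r, r * (r + 1) ≤ 2 * w → r + 1 ≤ w := fun r hr => by
      by_contra hc
      have : w * (r + 1) ≤ r * (r + 1) := Nat.mul_le_mul_right _ (by omega)
      nlinarith
    by_cases k1 : c - q = 1 <;> by_cases k2 : q + h - c = 1
    · rw [k1] at H1
      rw [k2] at H2
      have := H1.thin.1
      have := H2.thin.1
      have b1 : ∀ i ∈ S, b i = 1 := fun i hi => by have := H.ins i hi; have := hc i hi; omega
      have : S.card ≤ w := by
        by_contra hw
        have inj : Set.InjOn (fun i => (a i : ℤ)) S := fun i hi j hj e => by_contra fun c => by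
          have := H.dis i hi j hj c
          have := b1 i hi
          have := b1 j hj
          simp only at e
          omega
        have k := sum_range_le_sum (s := S.image fun i => (a i : ℤ)) (c := 1) fun x hx => by
          obtain ⟨i, hi, rfl⟩ := mem_image.mp hx
          have := H.ins i hi
          omega
        have e3 : ∑ i ∈ S, a i = 2 * w := by
          rw [sum_add_distrib (s := S), sum_congr rfl b1, sum_const, smul_eq_mul] at e1
          omega
        rw [card_image_of_injOn inj, sum_image inj, sum_add_distrib, ← Nat.cast_sum, ← Nat.cast_sum,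
          e3, sum_const, card_range, nsmul_eq_mul] at k
        have := sum_range_id_mul_two S.card
        obtain ⟨n, hn⟩ : ∃ n, S.card = n + 1 := ⟨S.card - 1, by omega⟩
        rw [hn] at k this hw
        rw [Nat.add_sub_cancel] at this
        have : w ≤ n := by omega
        zify at *
        nlinarith
      omega
    · rw [k1] at H1
      have := H1.thin.1
      have := t _ H1.thin.2
      have := ih _ _ _ _ _ _ _ _ _ (by omega) h2 (by omega) H2
      omega
    · rw [k2] at H2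
      have := H2.thin.1
      have := t _ H2.thin.2
      have := ih _ _ _ _ _ _ _ _ _ (by omega) h2 (by omega) H1
      omega
    · have := ih _ _ _ _ _ _ _ _ _ (by omega) h2 (by omega) H1
      have := ih _ _ _ _ _ _ _ _ _ (by omega) h2 (by omega) H2
      omega
  intro S X Y a b p q w h h1 h2 h3 H
  by_cases c1 : ∀ c, p < c → c < p + w → ∃ i ∈ S, X i < c ∧ c < X i + a i
  · by_cases c2 : ∀ c, q < c → c < q + h → ∃ i ∈ S, Y i < c ∧ c < Y i + b i
    · have := H.cross c1
      have := H.swap.cross c2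
      rw [sum_add_distrib]
      omega
    · push Not at c2
      obtain ⟨c, d1, d2, d3⟩ := c2
      exact key S X Y a b p q w h c h1 h2 H d1 d2 fun i hi => by have := d3 i hi; omega
  · push Not at c1
    obtain ⟨c, d1, d2, d3⟩ := c1
    have := key S Y X b a q p h w c (by omega) h3 H.swap d1 d2 fun i hi => by have := d3 i hi; omega
    rw [sum_add_distrib] at this ⊢
    omega

lemma full {n m : ℕ} (H : DT S X Y a b 0 0 n n) (hm : S.card = m + 1) (h1 : 2 * m ≤ n + 2)
    (h2 : 2 * n < m * (m + 1)) (h3 : 2 ≤ m) {t : ι} (ht : t ∈ S) (ha : a t = n) :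
    3 * n + 2 * m ≤ ∑ i ∈ S, (a i + b i) + 2 := by
  have t1 := H.ins t ht
  by_cases c : 0 < Y t ∧ Y t + b t < n
  · have k1 := H.cols 3 fun u _ hu => by
      obtain ⟨i, i1, i2⟩ := H.cov u 0 (by omega) hu le_rfl (by omega)
      obtain ⟨j, j1, j2⟩ := H.cov u (n - 1) (by omega) hu (by omega) (by omega)
      have it : i ≠ t := fun e => by subst e; omega
      have jt : j ≠ t := fun e => by subst e; omega
      have := H.sep i i1 t ht it
      exact two_lt_card_iff.mpr ⟨i, j, t, mem_filter.mpr ⟨i1, by omega⟩, mem_filter.mpr ⟨j1, by omega⟩,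
        mem_filter.mpr ⟨ht, by omega⟩, fun e => by subst e; omega, it, jt⟩
    have k2 := H.swap.cols 1 fun u _ hu => by
      obtain ⟨i, i1, i2⟩ := H.cov 0 u le_rfl (by omega) (by omega) hu
      exact card_pos.mpr ⟨i, mem_filter.mpr ⟨i1, by omega⟩⟩
    rw [sum_add_distrib]
    omega
  obtain ⟨q, hq⟩ : ∃ q, (Y t = 0 ∧ q = b t) ∨ (Y t + b t = n ∧ q = 0) := by
    by_cases e : Y t = 0
    exacts [⟨_, Or.inl ⟨e, rfl⟩⟩, ⟨_, Or.inr ⟨by omega, rfl⟩⟩]
  have H1 : DT (S.erase t) X Y a b 0 q n (n - b t) :=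
    ⟨fun i hi => by
        have := H.ins i (mem_erase.mp hi).2
        have := H.sep i (mem_erase.mp hi).2 t ht (mem_erase.mp hi).1
        omega,
      fun u v d1 d2 d3 d4 => (H.cov u v d1 d2 (by omega) (by omega)).imp fun i ⟨e1, e2⟩ =>
        ⟨mem_erase.mpr ⟨fun e => by subst e; omega, e1⟩, e2⟩,
      fun i hi j hj => H.sep i (mem_erase.mp hi).2 j (mem_erase.mp hj).2,
      fun i hi j hj => H.dis i (mem_erase.mp hi).2 j (mem_erase.mp hj).2⟩
  have e1 : (S.erase t).card = m := by rw [card_erase_of_mem ht]; omega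
  obtain ⟨i, hi⟩ := card_pos.mp (show 0 < (S.erase t).card by omega)
  have := H1.ins i hi
  by_cases k : n - b t = 1
  · rw [k] at H1
    have := H1.thin.2
    rw [e1] at this
    omega
  · have := thick _ _ _ _ _ _ _ _ _ _ le_rfl (by omega) (by omega) H1
    rw [← add_sum_erase _ _ ht]
    omega

lemma lower {n m : ℕ} (H : DT S X Y a b 0 0 n n) (hm : S.card = m + 1) (h1 : 2 * m ≤ n + 2)
    (h2 : 2 * n < m * (m + 1)) (h3 : 2 ≤ m) : 3 * n + 2 * m ≤ ∑ i ∈ S, (a i + b i) + 2 := by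
  have two : ∀ {X Y a b : ι → ℕ}, DT S X Y a b 0 0 n n → (∀ t ∈ S, b t ≠ n) → n * 2 ≤ ∑ i ∈ S, a i :=
    fun {X Y a b} H hb => H.cols 2 fun u _ hu => by
      obtain ⟨i, i1, i2⟩ := H.cov u 0 (by omega) hu le_rfl (by omega)
      have := H.ins i i1
      have := hb i i1
      obtain ⟨j, j1, j2⟩ := H.cov u (b i) (by omega) hu (by omega) (by omega)
      exact one_lt_card.mpr ⟨i, mem_filter.mpr ⟨i1, by omega⟩, j, mem_filter.mpr ⟨j1, by omega⟩,
        fun e => by subst e; omega⟩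
  by_cases c1 : ∃ t ∈ S, a t = n
  · obtain ⟨t, t1, t2⟩ := c1
    exact full H hm h1 h2 h3 t1 t2
  by_cases c2 : ∃ t ∈ S, b t = n
  · obtain ⟨t, t1, t2⟩ := c2
    have := full H.swap hm h1 h2 h3 t1 t2
    rw [sum_add_distrib] at this ⊢
    omega
  push Not at c1 c2
  have := two H c2
  have := two H.swap c1
  rw [sum_add_distrib]
  omega

lemma int_pos {ι : Type} [Fintype ι] {n : ℝ} {x y : ι → ℝ} {a b : ι → ℕ} (h0 : ∀ i, 0 < a i ∧ 0 < b i)
    (h1 : ∀ s t, (0 ≤ s ∧ s ≤ n) ∧ 0 ≤ t ∧ t ≤ n ↔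
      ∃ i, (x i ≤ s ∧ s ≤ x i + a i) ∧ y i ≤ t ∧ t ≤ y i + b i)
    (h2 : ∀ i j, i ≠ j → ∀ s t, (x i < s ∧ s < x i + a i) ∧ y i < t ∧ t < y i + b i →
      ¬((x j < s ∧ s < x j + a j) ∧ y j < t ∧ t < y j + b j)) : ∀ i, ∃ k : ℕ, x i = k := by
  classical
  by_contra hc
  obtain ⟨i, i1, i2⟩ := exists_min_image (univ.filter fun i => ¬∃ k : ℕ, x i = k) x
    ((not_forall.mp hc).imp fun i hi => by simpa using hi)
  have i3 := (mem_filter.mp i1).2
  have p : ∀ i, (1 : ℝ) ≤ a i ∧ (1 : ℝ) ≤ b i := fun i => by exact_mod_cast h0 i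
  obtain ⟨p1, p2⟩ := p i
  obtain ⟨⟨c1, c2⟩, c3⟩ := (h1 (x i) (y i + 1 / 2)).mpr ⟨i, ⟨le_rfl, by linarith⟩, by linarith, by linarith⟩
  have x0 : 0 < x i := c1.lt_of_ne fun e => i3 ⟨0, by simp [← e]⟩
  obtain ⟨s, ⟨s1, s2⟩, s3⟩ := (((eventually_ge_nhds x0).and (Filter.eventually_all.mpr fun k =>
    show ∀ᶠ s in nhds (x i), x k + a k < x i → x k + a k < s by
      by_cases e : x k + a k < x i
      · exact (eventually_gt_nhds e).mono fun _ h _ => h
      · exact .of_forall fun _ h => absurd h e)).filter_mono (nhdsWithin_le_nhds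
    (s := Set.Iio (x i)))).and self_mem_nhdsWithin |>.exists
  have s4 : s < x i := s3
  obtain ⟨j, ⟨j1, j2⟩, j3, j4⟩ := (h1 s (y i + 1 / 2)).mp ⟨⟨s1, by linarith⟩, c3⟩
  obtain ⟨p3, p4⟩ := p j
  rcases lt_trichotomy (x j + a j) (x i) with e | e | e
  · linarith [s2 j e]
  · by_cases hj : ∃ k : ℕ, x j = k
    · obtain ⟨k, hk⟩ := hj
      exact i3 ⟨k + a j, by push_cast; linarith⟩
    · linarith [i2 j (by simpa using hj)]
  · obtain ⟨s', d1, d2⟩ := exists_between (lt_min e (show x i < x i + a i by linarith))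
    obtain ⟨t', d3, d4⟩ := exists_between (show max (y i) (y j) < min (y i + b i) (y j + b j) by
      simp only [max_lt_iff, lt_min_iff]; refine ⟨⟨?_, ?_⟩, ?_, ?_⟩ <;> linarith)
    simp only [max_lt_iff, lt_min_iff] at d2 d3 d4
    exact h2 i j (fun e => by subst e; linarith) s' t' ⟨⟨d1, d2.2⟩, d3.1, d4.1⟩
      ⟨⟨by linarith, d2.1⟩, d3.2, d4.2⟩

end Pool.Agent.H.MP_88b750_co
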